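import Mathlib
import Pool.Agent.Helper844.WP.NonAssocDefs
import Pool.Agent.Helper844.WP.NonAssocMain

/-!
# Varieties of algebras with a finitely presented member with unsolvable word problem

Let `F` be a computable field of characteristic zero. No variety `V` of `F`-algebras between the
variety `W_F` of associative algebras with `x[y,z][t,u]v = 0`, `x[y,z,t]u = 0` and the variety of
all associative algebras belongs to the class of varieties all of whose finitely presented
algebras have solvable word problem.

The proof codes a recursively enumerable set by systems of linear differential equations of order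
one over a polynomial ring, see `Pool/Agent/Results/MP_f5ceca_al/ContainsW.lean`.
-/

set_option autoImplicit false

namespace Pool.Agent.Results.MP_59b51d_al.BetweenWAndAssoc

open Pool.Agent.Helper844.WPN

universe u

/-- If a variety consists of associative algebras and contains all associative algebras with
`x[y,z][t,u]v = 0` and `x[y,z,t]u = 0`, then some algebra that is finitely presented in the variety
has unsolvable word problem. -/
theorem result (F : Type u) [Field F] [CharZero F] (ν : ℕ → F) (hν : IsComputableField ν)
    (I : Set (FreeNonUnitalNonAssocAlgebra F ℕ))
    (hassoc : ∀ (A : Type u) [NonUnitalNonAssocRing A] [Module F A] [IsScalarTower F A A]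
      [SMulCommClass F A A], InVariety I A → ∀ a b c : A, a * b * c = a * (b * c))
    (hW : ∀ (A : Type u) [NonUnitalRing A] [Module F A] [IsScalarTower F A A]
      [SMulCommClass F A A],
      (∀ x y z t u v : A, x * (y * z - z * y) * (t * u - u * t) * v = 0) →
      (∀ x y z t u : A, x * ((y * z - z * y) * t - t * (y * z - z * y)) * u = 0) →
      InVariety I A) :
    ∃ (n : ℕ) (R : Finset (FreeNonUnitalNonAssocAlgebra F (Fin n))),
      ¬ SolvableWordProblem ν I n R :=
  undecidable F ν hν.surjective I hassoc hW

end Pool.Agent.Results.MP_59b51d_al.BetweenWAndAssoc
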